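import Pool.Agent.Helper92.HR.GoodMain

set_option autoImplicit false

/-!
# Weak abundance and fibrations: the comparison formula
-/

namespace Pool.Agent.Results.MP_2c56d9_ag.Fibrations

open Pool.Agent.Helper92.Weak Pool.Agent.Helper92.HA

universe u

/-- Let `X` and `Z` be normal projective varieties of dimension `n + r` and `n`, and let
`p = (K_X, Δ)`, `Δ ≥ 0`, be a pair on `X` with a fibration of `X` over `Z` of one of the following
types, such that every prime divisor of `X` maps onto `Z` or onto a prime divisor of `Z`.
(C) `X → Z` is a morphism and the geometric generic fibre is a curve of genus one, or of genus zero;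
in the case of genus zero the horizontal coefficients of `Δ` are at most one, or `K_X + min(Δ, 1)` has
positive degree on the generic fibre.
(A) `X → Z` is a morphism with connected fibres and `r ≥ 1`; over a finite extension `K'` of the function
field of `Z` there are a log canonical hyperplane arrangement `(ℙʳ, ∑ δ_i H_i)`, whose hyperplanes have
no common point, and a Kummer cover `V` of `ℙʳ`, ramified along the `H_i` only, whose function field `L'`
is finite over the function field `L` of `X`, such that (on the generic fibre) every prime divisor of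
`V` lies over a prime divisor of `X`, and the log pull-back of `(X, Δ)` to `L'` is the log pull-back of
`(ℙʳ, ∑ δ_i H_i)` plus an effective divisor which is exceptional over `ℙʳ` (or, if
`K_(ℙʳ) + ∑ δ_i H_i` is ample and `L' = L ⊗ K'`, whose support contains all or none of the components
over each prime divisor of `ℙʳ`).  For instance, `Δ = 0` on the generic fibre, which is a hyperelliptic
curve or a smooth complete intersection of diagonal hypersurfaces.
(T) A torus of rank `r` acts on `X`, `Z` has the function field of the quotient, and `(X, Δ)` is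
log canonical (the rational map `X ⇢ Z` need not be a morphism).
More generally `(X, Δ)` may be obtained from such pairs by finite covers and finite quotients over
`Z`, `K_X + Δ` being the pull-back.  The vertical part of `Δ` is arbitrary in (C) and (A).

Let `E ≥ 0` be a divisor on `Z`, `q = (K_Z, E)`, with `e E(Q) ≤ Δ(P) + e - 1` for all `P` over `Q` with
multiplicity `e`, such that `κ(Z, K_Z + E) ≥ 0`.  Then there are `s`, equal to `-∞` or to an integer
between `0` and `r`, and an effective divisor `B` on `Z` such that for all rational `ε > 0` the Kodaira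
and the numerical dimension of `K_X + Δ` are those of `K_Z + E + ε B`, plus `s`.  In the case (A), `s` is
`-∞`, `0`, `r` if the degree `∑ δ_i - (r + 1)` is negative, zero, positive.  If `Z` is smooth and
`ℚ`-factorial and `(Z, E)` is klt, then `(Z, E + ε B)` is klt for all small `ε`. -/
theorem result {k K : Type u} [Field k] [Field K] [Algebra k K] [IsAlgClosed k] [CharZero k]
    {Z : ProjVar k K} {n : ℕ} (hn : Algebra.trdeg k K = n) {S : Set EReal} {L : Type u} [Field L]
    [Algebra k L] [Algebra K L] {X : ProjVar k L} {r : ℕ} {p : X.Pair (n + r)}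
    (h : GoodFibration Z n S L X r p) (q : Z.Pair n) (hq : IsOrbifoldBase p q)
    (hκ : Z.kod q.logDiv ≠ ⊥) :
    ∃ s ∈ S, (s = ⊥ ∨ ∃ i : ℕ, i ≤ r ∧ s = i) ∧ ∃ B : Z.Div, (∀ Q, 0 ≤ B Q) ∧
      (∀ ε : ℚ, 0 < ε → X.kod p.logDiv = s + Z.kod (q.logDiv + ε • B) ∧
        X.nu p.logDiv = s + Z.nu (q.logDiv + ε • B)) ∧
      (Z.IsSmooth n → Z.IsQFactorial → Z.IsKlt q.ω q.can q.Δ →
        ∃ ε₀ : ℚ, 0 < ε₀ ∧ ∀ ε, 0 < ε → ε ≤ ε₀ → Z.IsKlt q.ω q.can (q.Δ + ε • B)) := by
  obtain ⟨s, hs, h1⟩ := h.main hn q hq hκ
  exact ⟨s, hs, h.bound s hs, h1⟩

end Pool.Agent.Results.MP_2c56d9_ag.Fibrations
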