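import Pool.Agent.Helper60.MA.Main

set_option autoImplicit false

/-!
# Weak abundance for pairs whose open part is generically finite over a torus
-/

namespace Pool.Agent.Results.MP_2c56d9_ag.QuasiAlbanese

open Pool.Agent.Helper92.Weak Pool.Agent.Helper60.MA

/-- Let `X` be a normal projective variety of dimension `n` over an algebraically closed field `k` of
characteristic `0`, with function field `L`, and let `Δ` be any effective `ℚ`-divisor on `X`
(`(X, Δ)` need not be log canonical, and `K_X + Δ` need not be `ℚ`-Cartier).  Let
`Q` be the field generated by `k` and the quotients of sections of multiples `m (K_X + Δ)`, `m ≥ 1`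
(the function field of the base of the Iitaka fibration, or `k` if there are no sections).  Suppose
there are rational functions `t₁, ..., t_e` on `X` such that `t₁, ..., t_e` have order `0` along every
prime divisor `P` of `X` with `Δ(P) < 1` which is trivial on `Q`, and such that `L` is algebraic over
`Q(t₁, ..., t_e)`.  Then the Kodaira dimension and the numerical dimension of `K_X + Δ` are equal, and
nonnegative.

In particular this holds if there are `n` algebraically independent rational functions on `X` all of
whose zeros and poles are components of `Δ` of coefficient `≥ 1`, that is, if the complement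
of these components has a generically finite rational map to a torus given by units. -/
theorem result {k L : Type*} [Field k] [IsAlgClosed k] [CharZero k] [Field L] [Algebra k L] {n : ℕ}
    (hn : Algebra.trdeg k L = n) (X : ProjVar k L) (p : X.Pair n) {e : ℕ} (t : Fin e → L)
    (hunit : ∀ P : X.primeDivisors, p.Δ P < 1 → (∀ q ∈ ratios X p.logDiv, P.1 q = 0) →
      ∀ i, P.1 (t i) = 0)
    (halg : ∀ x : L, IsAlgebraic
      (IntermediateField.adjoin k (ratios X p.logDiv ∪ Set.range t)) x) :
    X.kod p.logDiv = X.nu p.logDiv ∧ 0 ≤ X.kod p.logDiv :=
  main hn X p t hunit halg

end Pool.Agent.Results.MP_2c56d9_ag.QuasiAlbanese
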