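import Pool.Agent.Helper92.KS.Final

set_option autoImplicit false

/-!
# Weak abundance for varieties with a dense orbit of a connected solvable group
-/

namespace Pool.Agent.Results.MP_2c56d9_ag.SolvableGroups

open Pool.Agent.Helper92.Weak Pool.Agent.Helper47.PQ Pool.Agent.Helper92.KS

/-- Let `X'` be a normal projective variety with an action of a connected solvable linear algebraic
group `G = T ⋉ U` with a dense orbit, in the coordinates given by `g = t u`: the function field of
`X'` is `k(x₁, ..., x_r, y₁, ..., y_s)`, the automorphisms `y_j ↦ b_j y_j` (the torus `T`) and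
`x ↦ exp (c y^β δ) x` (the one parameter subgroups of the unipotent radical `U`) act on `X'`, where
`(β, δ)` runs through a set of pairs of a weight `β ∈ ℤ^s` and a triangular derivation `δ` of
`k[x₁, ..., x_r]`, such that the common kernel of the derivations `δ` is `k`. Let `X' → X` be a
finite morphism onto a normal projective variety `X` (for example, `X = X'`). Then the Kodaira
dimension and the numerical dimension of `D` agree for every `ℚ`-divisor `D` on `X`; in particular
they agree for `D = K_X + Δ`, for every pair `(X, Δ)`. -/
theorem result {k L E : Type*} [Field k] [IsAlgClosed k] [CharZero k] [Field L] [Field E]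
    [Algebra k L] [Algebra k E] [Algebra L E] [IsScalarTower k L E] {r s : ℕ} {x : Fin r → E}
    {y : Fin s → E}
    {𝒟 : Set ((Fin s → ℤ) × Derivation k (MvPolynomial (Fin r) k) (MvPolynomial (Fin r) k))}
    {X' : ProjVar k E} (h : IsSolvableCompactification x y 𝒟 X') {X : ProjVar k L}
    (hc : IsFiniteCover X' X) (D : X.Div) : X.kod D = X.nu D :=
  kod_eq_nu_cover h hc D

end Pool.Agent.Results.MP_2c56d9_ag.SolvableGroups
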