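import Pool.Agent.Helper63.PB.TowerMain

set_option autoImplicit false

/-!
# Weak abundance for towers of fibrations
-/

universe u

namespace Pool.Agent.Results.MP_2c56d9_ag.Towers

open Pool.Agent.Helper92.Weak Pool.Agent.Helper63.PB

/-- A pair `(Z, q)` is a normal projective variety `Z` over an algebraically closed field `k` of
characteristic zero, with a canonical divisor `K_Z` and any effective `ℚ`-divisor `E`;
`q.logDiv = K_Z + E`.  A pair is stable if `κ(K_Z + E) ≥ 0` and `κ(K_Z + E + B) = ν(K_Z + E + B)`
for every effective `ℚ`-divisor `B`.  (If `Z` is `ℚ`-factorial, `(Z, E)` is klt and
`κ(K_Z + E) ≥ 0`, then this is abundance for the klt pairs `(Z, E + c B)`, `c > 0` small: `κ` and `ν`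
of an effective divisor depend only on its support.  So every such pair should be stable.)

Let `T` be the smallest class of pairs which contains

* the pairs `(Z, E)` with `κ(K_Z + E) ≥ 0` such that all prime divisors of `Z` are big (for instance
  `Z` is a curve, or is `ℚ`-factorial with Picard number one), or for all `D ≥ 0` the section ring
  `⊕ H⁰(a D + b A)` is finitely generated for arbitrarily large `A` (for instance `Z` is a Mori dream
  space, an abelian variety or a K3 surface), and all pairs with `K_Z + E` big,
* the pairs of a given class `𝓑` of stable pairs (which may be empty),

and which is closed under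

* larger boundaries, birational contractions, and more generally birational maps `X ⇢ Y` such that
  `Δ_X ≥ Δ_Y` along the common prime divisors, and at the prime divisors `P` of `X` which are not
  prime divisors of `Y` the coefficient of `Δ_X` is larger than `1 - A(P; Y, Δ_Y)`,
* products `F × Y`, where the boundary is at least the sum of the pull backs, if `F` is rational or
  every divisor of `F × Y` has a multiple which is linearly equivalent to a sum of pull backs (for
  instance, `F` of general type with `h¹(𝓞_F) = 0`),
* finite quotients (with `K + Δ` pulled back),
* the following fibrations `X → Z`, where every prime divisor of `X` is mapped onto `Z` or onto a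
  prime divisor of `Z`, `(Z, E)` belongs to `T`, `e E(Q) ≤ Δ(P) + e - 1` for all prime divisors `P`
  of `X` over `Q` with multiplicity `e`, and `κ(K_X + Δ) ≥ 0`:
  (1) the geometric generic fibre is a curve of genus zero or one, the coefficients of `Δ` on it are
  smaller than one, or `K + min(Δ, 1)` is big on it;
  (2) the geometric generic fibre is birational to `ℙᵈ`, no prime divisor of `ℙᵈ` is contracted on
  it, and `K_X + Δ` is on it at least `K + ∑ δ_i H_i`, where `(ℙᵈ, ∑ δ_i H_i)` is a log canonical
  hyperplane arrangement of log general type;
  (3) a torus acts on `X` with (rational) quotient `X ⇢ Z`, and for every effective `B` the pair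
  `(X, Δ + c B)` is log canonical for some `c > 0`.

Then all pairs of `T` are stable.  Moreover `κ(K_X + Δ) = ν(K_X + Δ)` also holds in the second class
(`b = false`) obtained from `T` by fibrations over pairs of `T` of the same kinds, where now in (1)
the coefficients of `Δ` on the fibre may be one, in (2) the general fibre and a log canonical
arrangement of any Kodaira dimension whose hyperplanes span have the same log pull-back to a common
finite Kummer cover of `ℙᵈ` (more generally, no prime divisor of the Kummer cover is contracted on
the fibre, and at the prime divisors of the fibre which are exceptional over `ℙᵈ` it is enough that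
the log pull-back of the fibre is at least the one of the arrangement), in (3) `(X, Δ)` is log
canonical; also
(4) by fibrations over pairs of `T` with connected fibres on which `K_X + Δ` has numerical dimension
zero (`h⁰(m (K_X + Δ) + A)` is bounded in `m`, for all `A`), where instead of
`e E(Q) ≤ Δ(P) + e - 1` it is assumed that `K_X + Δ - f* (K_Z + E)` is `ℚ`-effective (for klt pairs
with `K_X + Δ` trivial on the fibres this is the canonical bundle formula, with `E` the sum of the
discriminant and the moduli part; for instance all fibrations in abelian varieties, K3 surfaces,
Calabi-Yau varieties over such `(Z, E)`);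
and then by products, crepant birational maps, and finite covers and quotients with `K + Δ` pulled
back (so for instance by isotrivial fibrations `(F × Z') / G → Z' / G`).

For instance `T` contains all iterated fibrations of this kind over a curve, and the second class
contains all fibrations over pairs of `T` whose general fibre is a hyperelliptic curve (with
`Δ = 0` on it), for instance a curve of genus two, or an abelian cover of `ℙᵈ` branched along general
hyperplanes.  If `Z` is smooth and
`K_Z` is stable, then `T` contains `(X, Δ)` for every normal projective `X` with any morphism onto
`Z` whose general fibre has genus zero or one, if the coefficients of `Δ` on the general fibre are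
smaller than one and `κ(K + Δ) ≥ 0` on a suitable model: there are birational models `X' → Z'` of
`X → Z` with the property on prime divisors, `(Z', 0)` belongs to `T` by extraction, `(X', Δ')` by
(1), and `(X, Δ)` by contraction. -/
theorem result {k : Type u} [Field k] [IsAlgClosed k] [CharZero k] (𝓑 : PairClass k)
    (h𝓑 : ∀ (K : Type u) [Field K] [Algebra k K] (Z : ProjVar k K) (d : ℕ) (q : Z.Pair d),
      𝓑 K Z d q → IsStable Z q.logDiv)
    (b : Bool) (K : Type u) [Field K] [Algebra k K] (Z : ProjVar k K) (d : ℕ) (q : Z.Pair d)
    (h : Tower k 𝓑 b K Z d q) :
    Z.kod q.logDiv = Z.nu q.logDiv ∧ (b = true → IsStable Z q.logDiv) :=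
  (h.main h𝓑).2

end Pool.Agent.Results.MP_2c56d9_ag.Towers
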